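import Pool.Agent.H947R2.CV.Stubs
import Pool.Agent.H137R2.Weak.Final

set_option autoImplicit false

open scoped Pointwise

namespace H947CV.RANKaux

theorem tf {n : ℕ} {m : ℕ} (hm : m ≠ 0) {x : Fin n → ℤ} (h : m • x = 0) : x = 0 := by
  funext i
  have h1 : (m • x) i = 0 := by rw [h]; rfl
  rw [Pi.smul_apply, nsmul_eq_mul, mul_eq_zero] at h1
  rcases h1 with h1 | h1
  · exact absurd (by exact_mod_cast h1) hm
  · exact h1

theorem pigeon {α β : Type*} [DecidableEq α] [DecidableEq β] (A : Finset α) (T : Finset β)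
    (hA : A.Nonempty) (R : α → β → Prop) [∀ a b, Decidable (R a b)]
    (h : ∀ a ∈ A, ∃ t ∈ T, R a t) :
    ∃ t ∈ T, A.card ≤ T.card * (A.filter fun a => R a t).card := by
  have hT : T.Nonempty := by
    obtain ⟨a, ha⟩ := hA
    obtain ⟨t, ht, -⟩ := h a ha
    exact ⟨t, ht⟩
  by_contra hcon
  push Not at hcon
  have h1 : A.card ≤ ∑ t ∈ T, (A.filter fun a => R a t).card := by
    refine le_trans (Finset.card_le_card ?_) Finset.card_biUnion_le
    intro a ha
    obtain ⟨t, ht, hr⟩ := h a ha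
    exact Finset.mem_biUnion.mpr ⟨t, ht, Finset.mem_filter.mpr ⟨ha, hr⟩⟩
  have h2 : ∑ t ∈ T, T.card * (A.filter fun a => R a t).card < ∑ t ∈ T, A.card :=
    Finset.sum_lt_sum_of_nonempty hT hcon
  rw [← Finset.mul_sum, Finset.sum_const, smul_eq_mul] at h2
  have h3 := Nat.mul_le_mul_left T.card h1
  omega

theorem core (n : ℕ) (K : ℝ) (A : Finset (Fin n → ℤ)) (hA : A.Nonempty)
    (hK : ((A + A).card : ℝ) ≤ K * A.card) :
    ∃ (d : ℕ) (t : Fin n → ℤ) (ψ : (Fin d → ℤ) →+ (Fin n → ℤ)) (A1 : Finset (Fin d → ℤ)),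
      t ∈ A ∧ Function.Injective ψ ∧ (d : ℝ) ≤ 480 * Real.log K + 1 ∧
      (A.card : ℝ) ≤ K ^ 185 * A1.card ∧ ∀ y, y ∈ A1 ↔ t + ψ y ∈ A := by
  classical
  obtain ⟨P, S, T, hPfin, -, -, hS, hTA, hT, hcov⟩ := H137.Weak.weak_marton (K := K) (A := A) hA (by convert hK; rfl)
  have hP : P = ⊥ := by
    rw [eq_bot_iff]
    intro x hx
    have h1 : IsOfFinAddOrder (⟨x, hx⟩ : P) := isOfFinAddOrder_of_finite _
    obtain ⟨m, hm, hmx⟩ := isOfFinAddOrder_iff_nsmul_eq_zero.mp h1
    have h2 : m • x = 0 := by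
      have h3 := congrArg Subtype.val hmx
      simpa using h3
    have h4 := tf hm.ne' h2
    rw [h4]
    exact AddSubgroup.zero_mem _
  rw [hP] at hcov
  set Λ : Submodule ℤ (Fin n → ℤ) := Submodule.span ℤ (S : Set (Fin n → ℤ)) with hΛ
  have hcov' : ∀ a ∈ A, ∃ t ∈ T, a - t ∈ Λ := by
    intro a ha
    obtain ⟨t, ht, o, ⟨m, hm, hmo⟩, hmem⟩ := hcov a ha
    have ho : o = 0 := tf (by rintro rfl; exact absurd hm (by decide)) hmo
    refine ⟨t, ht, ?_⟩
    rw [ho, sub_zero, bot_sup_eq] at hmem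
    have h5 : (Submodule.span ℤ (S : Set (Fin n → ℤ))).toAddSubgroup =
        AddSubgroup.closure (S : Set (Fin n → ℤ)) := Submodule.span_int_eq_addSubgroupClosure _
    rw [← h5] at hmem
    exact hmem
  obtain ⟨t, ht, hcard⟩ := pigeon A T hA (fun a t => a - t ∈ Λ) hcov'
  let b := Module.finBasis ℤ Λ
  let ψ0 : (Fin (Module.finrank ℤ Λ) → ℤ) →ₗ[ℤ] (Fin n → ℤ) :=
    Λ.subtype ∘ₗ b.equivFun.symm.toLinearMap
  have hinj : Function.Injective ψ0 := by
    intro x y hxy
    exact b.equivFun.symm.injective (Subtype.val_injective hxy)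
  have hinj' : Function.Injective (fun y => t + ψ0 y) := by
    intro x y hxy
    exact hinj (add_left_cancel hxy)
  refine ⟨Module.finrank ℤ Λ, t, ψ0.toAddMonoidHom, A.preimage (fun y => t + ψ0 y) hinj'.injOn,
    hTA ht, hinj, ?_, ?_, ?_⟩
  · refine le_trans ?_ hS
    exact_mod_cast finrank_span_finset_le_card S
  · have h1 : (A.filter fun a => a - t ∈ Λ).card ≤
        (A.preimage (fun y => t + ψ0 y) hinj'.injOn).card := by
      refine le_trans (Finset.card_le_card (t :=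
        (A.preimage (fun y => t + ψ0 y) hinj'.injOn).image (fun y => t + ψ0 y)) ?_)
        Finset.card_image_le
      intro a ha
      rw [Finset.mem_filter] at ha
      obtain ⟨ha1, ha2⟩ := ha
      have h3 : t + ψ0 (b.equivFun ⟨a - t, ha2⟩) = a := by
        show t + ((b.equivFun.symm (b.equivFun ⟨a - t, ha2⟩) : Λ) : Fin n → ℤ) = a
        rw [LinearEquiv.symm_apply_apply]
        show t + (a - t) = a
        abel
      rw [Finset.mem_image]
      refine ⟨b.equivFun ⟨a - t, ha2⟩, ?_, h3⟩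
      rw [Finset.mem_preimage, h3]
      exact ha1
    have h2 : (A.card : ℝ) ≤ T.card * (A.filter fun a => a - t ∈ Λ).card := by
      exact_mod_cast hcard
    refine h2.trans ?_
    have h3 : ((A.filter fun a => a - t ∈ Λ).card : ℝ) ≤
        (A.preimage (fun y => t + ψ0 y) hinj'.injOn).card := by exact_mod_cast h1
    have h4 : (0 : ℝ) ≤ ((A.filter fun a => a - t ∈ Λ).card : ℝ) := by positivity
    have h5 : (0 : ℝ) ≤ K ^ 185 := le_trans (by positivity) hT
    exact mul_le_mul hT h3 h4 h5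
  · intro y
    rw [Finset.mem_preimage]
    rfl

end H947CV.RANKaux

namespace H947CV

theorem RANK_proof : St_RANK := by
  intro n A K hA hK
  obtain ⟨d, t, ψ, A1, -, h1, h2, h3, h4⟩ := RANKaux.core n K A hA hK
  exact ⟨d, ψ, t, A1, h2, h1, h4, h3⟩

end H947CV
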